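import Pool.Agent.P8H82.WS.Stm

/-!
# Packages QQ and GG of project WS
-/

set_option autoImplicit false

namespace Pool.Agent.P8H78.WS

open MeasureTheory Filter Topology Set
open Pool.Agent.P8H82.JG (dens)
open Pool.Agent.P8H82.WS

theorem jr_ge {x : ℝ} (h0 : x ≠ 0) (h1 : x ≠ -1) : 1728 ≤ jr x := by
  have h2 : x + 1 ≠ 0 := fun h => h1 (by linarith)
  have h3 : 0 < (x * (x + 1)) ^ 2 := by positivity
  unfold jr
  rw [le_div_iff₀ h3]
  have h4 : 256 * (x ^ 2 + x + 1) ^ 3 - 1728 * (x * (x + 1)) ^ 2 =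
      64 * ((x - 1) * (x + 2) * (2 * x + 1)) ^ 2 := by ring
  nlinarith [sq_nonneg ((x - 1) * (x + 2) * (2 * x + 1))]

theorem jr_cts {x : ℝ} (h0 : x ≠ 0) (h1 : x ≠ -1) : ContinuousAt jr x := by
  have h2 : x + 1 ≠ 0 := fun h => h1 (by linarith)
  unfold jr
  apply ContinuousAt.div
  · fun_prop
  · fun_prop
  · positivity

/-- the shapes with a finite invariant -/
def UU : Set (ℝ × ℝ) := {x | x.1 ≠ 0 ∧ x.1 ≠ -1 ∧ x.2 ≠ 0 ∧ x.2 ≠ -1}

theorem UU_open : IsOpen UU := by
  have e : UU = {x : ℝ × ℝ | x.1 ≠ 0} ∩ ({x : ℝ × ℝ | x.1 ≠ -1} ∩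
      ({x : ℝ × ℝ | x.2 ≠ 0} ∩ {x : ℝ × ℝ | x.2 ≠ -1})) := rfl
  rw [e]
  refine IsOpen.inter ?_ (IsOpen.inter ?_ (IsOpen.inter ?_ ?_))
  · exact isOpen_ne_fun continuous_fst continuous_const
  · exact isOpen_ne_fun continuous_fst continuous_const
  · exact isOpen_ne_fun continuous_snd continuous_const
  · exact isOpen_ne_fun continuous_snd continuous_const

theorem null_fst (c : ℝ) : volume {x : ℝ × ℝ | x.1 = c} = 0 := by
  have e : {x : ℝ × ℝ | x.1 = c} = {c} ×ˢ univ := by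
    ext x
    simp
  rw [e, Measure.volume_eq_prod, Measure.prod_prod]
  simp

theorem null_snd (c : ℝ) : volume {x : ℝ × ℝ | x.2 = c} = 0 := by
  have e : {x : ℝ × ℝ | x.2 = c} = univ ×ˢ {c} := by
    ext x
    simp
  rw [e, Measure.volume_eq_prod, Measure.prod_prod]
  simp

theorem UU_null : volume UUᶜ = 0 := by
  have e : UUᶜ ⊆ {x : ℝ × ℝ | x.1 = 0} ∪ ({x : ℝ × ℝ | x.1 = -1} ∪
      ({x : ℝ × ℝ | x.2 = 0} ∪ {x : ℝ × ℝ | x.2 = -1})) := by
    intro x hx
    unfold UU at hx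
    simp only [mem_compl_iff, mem_ofPred_eq, not_and_or, not_not] at hx
    exact hx
  refine measure_mono_null e ?_
  exact measure_union_null (null_fst _) (measure_union_null (null_fst _)
    (measure_union_null (null_snd _) (null_snd _)))

/-- the function -/
noncomputable def FF (f : ℝ → ℝ) (x : ℝ × ℝ) : ℝ := f (jr x.1) + f (jr x.2)

theorem FF_cts {f : ℝ → ℝ} (hf : Inc f) : ContinuousOn (FF f) UU := by
  have h1 : ContinuousOn (fun x : ℝ × ℝ => f (jr x.1)) UU := by
    refine hf.cts.comp (t := Ici 1728) ?_ ?_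
    · intro x hx
      exact ((jr_cts hx.1 hx.2.1).comp continuous_fst.continuousAt).continuousWithinAt
    · intro x hx
      exact jr_ge hx.1 hx.2.1
  have h2 : ContinuousOn (fun x : ℝ × ℝ => f (jr x.2)) UU := by
    refine hf.cts.comp (t := Ici 1728) ?_ ?_
    · intro x hx
      exact ((jr_cts hx.2.2.1 hx.2.2.2).comp continuous_snd.continuousAt).continuousWithinAt
    · intro x hx
      exact jr_ge hx.2.2.1 hx.2.2.2
  exact h1.add h2

theorem QQ_eq (f : ℝ → ℝ) (y : ℝ) : QQ f y = UU ∩ FF f ⁻¹' Iic y := by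
  ext x
  unfold QQ UU FF
  simp only [mem_ofPred_eq, mem_inter_iff, mem_preimage, mem_Iic]
  tauto

theorem gt_open {f : ℝ → ℝ} (hf : Inc f) (y : ℝ) : IsOpen (UU ∩ FF f ⁻¹' Ioi y) :=
  (FF_cts hf).isOpen_inter_preimage UU_open isOpen_Ioi

theorem lt_open {f : ℝ → ℝ} (hf : Inc f) (y : ℝ) : IsOpen (UU ∩ FF f ⁻¹' Iio y) :=
  (FF_cts hf).isOpen_inter_preimage UU_open isOpen_Iio

theorem QQ_meas {f : ℝ → ℝ} (hf : Inc f) (y : ℝ) : MeasurableSet (QQ f y) := by
  have e : QQ f y = UU \ (UU ∩ FF f ⁻¹' Ioi y) := by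
    rw [QQ_eq]
    ext x
    simp only [mem_inter_iff, mem_preimage, mem_Iic, Set.mem_sdiff, mem_Ioi, not_and, not_lt]
    constructor
    · rintro ⟨h1, h2⟩
      exact ⟨h1, fun _ => h2⟩
    · rintro ⟨h1, h2⟩
      exact ⟨h1, h2 h1⟩
  rw [e]
  exact UU_open.measurableSet.diff (gt_open hf y).measurableSet

theorem fin_jr (c : ℝ) : {x : ℝ | x ≠ 0 ∧ x ≠ -1 ∧ jr x = c}.Finite := by
  open Polynomial in
  let P : Polynomial ℝ := 256 * (Polynomial.X ^ 2 + Polynomial.X + 1) ^ 3 -
    Polynomial.C c * (Polynomial.X * (Polynomial.X + 1)) ^ 2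
  have hP : P ≠ 0 := by
    intro h
    have : P.eval 0 = 0 := by rw [h, Polynomial.eval_zero]
    simp [P] at this
  refine (Polynomial.finite_setOfPred_isRoot hP).subset ?_
  rintro x ⟨h0, h1, h2⟩
  have h3 : x + 1 ≠ 0 := fun h => h1 (by linarith)
  unfold jr at h2
  rw [div_eq_iff (by positivity)] at h2
  rw [mem_ofPred_eq, Polynomial.IsRoot.def]
  simp only [P, Polynomial.eval_sub, Polynomial.eval_mul, Polynomial.eval_pow,
    Polynomial.eval_add, Polynomial.eval_X, Polynomial.eval_one, Polynomial.eval_C,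
    Polynomial.eval_ofNat]
  linarith

/-- the level sets are null sets -/
theorem lvl_null {f : ℝ → ℝ} (hf : Inc f) (y : ℝ) : volume (UU ∩ FF f ⁻¹' {y}) = 0 := by
  have hm : MeasurableSet (UU ∩ FF f ⁻¹' {y}) := by
    have e : UU ∩ FF f ⁻¹' {y} = QQ f y \ (UU ∩ FF f ⁻¹' Iio y) := by
      rw [QQ_eq]
      ext x
      simp only [mem_inter_iff, mem_preimage, mem_Iic, Set.mem_sdiff, mem_Iio, not_and, not_lt,
        mem_singleton_iff]
      constructor
      · rintro ⟨h1, h2⟩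
        exact ⟨⟨h1, h2.le⟩, fun _ => h2.ge⟩
      · rintro ⟨⟨h1, h2⟩, h3⟩
        exact ⟨h1, le_antisymm h2 (h3 h1)⟩
    rw [e]
    exact (QQ_meas hf y).diff (lt_open hf y).measurableSet
  rw [Measure.volume_eq_prod, Measure.measure_prod_null hm]
  refine Eventually.of_forall fun a => ?_
  change volume (Prod.mk a ⁻¹' (UU ∩ FF f ⁻¹' {y})) = 0
  have hfin : (Prod.mk a ⁻¹' (UU ∩ FF f ⁻¹' {y})).Finite := by
    rcases (Prod.mk a ⁻¹' (UU ∩ FF f ⁻¹' {y})).eq_empty_or_nonempty with h | ⟨b, hb⟩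
    · rw [h]
      exact finite_empty
    · refine (fin_jr (jr b)).subset fun c hc => ?_
      obtain ⟨⟨-, -, c1, c2⟩, c3⟩ := hc
      obtain ⟨⟨-, -, b1, b2⟩, b3⟩ := hb
      refine ⟨c1, c2, ?_⟩
      have h3 : f (jr c) = f (jr b) := by
        have e1 : f (jr a) + f (jr c) = y := c3
        have e2 : f (jr a) + f (jr b) = y := b3
        linarith
      exact hf.mono.injOn (jr_ge c1 c2) (jr_ge b1 b2) h3
  exact hfin.measure_zero _

theorem qq : S_QQ := by
  intro f hf y
  refine ⟨QQ_meas hf y, ?_⟩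
  refine measure_mono_null (t := UUᶜ ∪ (UU ∩ FF f ⁻¹' {y})) ?_
    (measure_union_null UU_null (lvl_null hf y))
  intro x hx
  by_cases hxU : x ∈ UU
  · right
    refine ⟨hxU, ?_⟩
    rw [mem_preimage, mem_singleton_iff]
    rw [frontier, Set.mem_sdiff] at hx
    apply le_antisymm
    · by_contra h
      push Not at h
      have h1 : x ∈ UU ∩ FF f ⁻¹' Ioi y := ⟨hxU, h⟩
      obtain ⟨z, hz1, hz2⟩ := mem_closure_iff.1 hx.1 _ (gt_open hf y) h1
      rw [QQ_eq] at hz2
      exact absurd (show FF f z ≤ y from hz2.2) (not_le.2 hz1.2)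
    · by_contra h
      push Not at h
      refine hx.2 (mem_interior.2 ⟨UU ∩ FF f ⁻¹' Iio y, ?_, lt_open hf y, hxU, h⟩)
      rw [QQ_eq]
      exact fun z hz => ⟨hz.1, show FF f z ≤ y from le_of_lt hz.2⟩
  · exact Or.inl hxU

/-- the density of the pairs -/
noncomputable def gD (x : ℝ × ℝ) : ℝ := dens x.1 * dens x.2

theorem dens_nonneg (x : ℝ) : 0 ≤ dens x := by
  unfold dens
  positivity

theorem dens_pos {x : ℝ} (h0 : x ≠ 0) (h1 : x ≠ -1) : 0 < dens x := by
  have h2 : x + 1 ≠ 0 := fun h => h1 (by linarith)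
  unfold dens
  apply Real.rpow_pos_of_pos
  positivity

theorem gD_nonneg (x : ℝ × ℝ) : 0 ≤ gD x := mul_nonneg (dens_nonneg _) (dens_nonneg _)

theorem jr_top : Tendsto jr atTop atTop := by
  refine tendsto_atTop_mono' _ ?_ tendsto_id
  filter_upwards [eventually_ge_atTop (1 : ℝ)] with x hx
  unfold jr
  have h1 : 0 < x := by linarith
  rw [id, le_div_iff₀ (by positivity)]
  have h2 : x * (x + 1) ≤ x ^ 2 + x + 1 := by nlinarith
  have h3 : (x * (x + 1)) ^ 2 ≤ (x ^ 2 + x + 1) ^ 2 := by gcongr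
  have h4 : x ≤ 256 * (x ^ 2 + x + 1) := by nlinarith
  calc x * (x * (x + 1)) ^ 2 ≤ (256 * (x ^ 2 + x + 1)) * (x ^ 2 + x + 1) ^ 2 := by gcongr
    _ = _ := by ring

theorem gg_all : S_GG := by
  intro f hf hi
  have hg : Integrable gD := hi.mul_prod hi
  have hE : ∀ y, ∫ x in QQ f y, dens x.1 * dens x.2 = ∫ x, (QQ f y).indicator gD x := fun y => by
    rw [integral_indicator (QQ_meas hf y)]
    rfl
  have hmono : ∀ y y', y ≤ y' → QQ f y ⊆ QQ f y' := fun y y' h x hx => by
    rw [QQ_eq] at hx ⊢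
    exact ⟨hx.1, le_trans hx.2 h⟩
  have hmeas : ∀ y, AEStronglyMeasurable ((QQ f y).indicator gD) volume := fun y =>
    hg.aestronglyMeasurable.indicator (QQ_meas hf y)
  have hbd : ∀ y, ∀ᵐ a, ‖(QQ f y).indicator gD a‖ ≤ gD a := fun y =>
    Eventually.of_forall fun a => by
      by_cases h : a ∈ QQ f y
      · rw [indicator_of_mem h, Real.norm_of_nonneg (gD_nonneg a)]
      · rw [indicator_of_notMem h, norm_zero]
        exact gD_nonneg a
  refine ⟨?_, ?_, ?_, ?_, ?_⟩
  · -- continuity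
    simp only [hE]
    rw [continuous_iff_continuousAt]
    intro y
    refine continuousAt_of_dominated (bound := gD) (Eventually.of_forall hmeas)
      (Eventually.of_forall hbd) hg ?_
    have h1 : ∀ᵐ a : ℝ × ℝ, a ∉ UU ∩ FF f ⁻¹' {y} := measure_eq_zero_iff_ae_notMem.1 (lvl_null hf y)
    filter_upwards [h1] with a ha
    by_cases haU : a ∈ UU
    · have hne : FF f a ≠ y := fun h => ha ⟨haU, h⟩
      rcases lt_or_gt_of_ne hne with h | h
      · refine (continuousAt_const (y := gD a)).congr ?_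
        filter_upwards [eventually_gt_nhds h] with z hz
        rw [indicator_of_mem]
        rw [QQ_eq]
        exact ⟨haU, le_of_lt hz⟩
      · refine (continuousAt_const (y := (0 : ℝ))).congr ?_
        filter_upwards [eventually_lt_nhds h] with z hz
        rw [indicator_of_notMem]
        rw [QQ_eq]
        exact fun h' => absurd (show FF f a ≤ z from h'.2) (not_le.2 hz)
    · refine (continuousAt_const (y := (0 : ℝ))).congr (Eventually.of_forall fun z => ?_)
      change 0 = (QQ f z).indicator gD a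
      rw [indicator_of_notMem]
      rw [QQ_eq]
      exact fun h' => haU h'.1
  · -- monotone
    intro y y' h
    refine setIntegral_mono_set hg.integrableOn (Eventually.of_forall fun a => gD_nonneg a) ?_
    exact (hmono y y' h).eventuallyLE
  · -- limit
    simp only [hE]
    refine tendsto_integral_filter_of_dominated_convergence gD (Eventually.of_forall hmeas)
      (Eventually.of_forall hbd) hg ?_
    have h1 : ∀ᵐ a : ℝ × ℝ, a ∉ UUᶜ := measure_eq_zero_iff_ae_notMem.1 UU_null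
    filter_upwards [h1] with a ha
    rw [mem_compl_iff, not_not] at ha
    refine tendsto_const_nhds.congr' ?_
    filter_upwards [eventually_ge_atTop (FF f a)] with z hz
    rw [indicator_of_mem]
    · rfl
    · rw [QQ_eq]
      exact ⟨ha, hz⟩
  · -- zero
    intro y hy
    have : QQ f y = ∅ := by
      rw [QQ_eq, eq_empty_iff_forall_notMem]
      rintro x ⟨h1, h2⟩
      have h3 : f 1728 ≤ f (jr x.1) :=
        hf.mono.monotoneOn (mem_Ici.2 le_rfl) (jr_ge h1.1 h1.2.1) (jr_ge h1.1 h1.2.1)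
      have h4 : f 1728 ≤ f (jr x.2) :=
        hf.mono.monotoneOn (mem_Ici.2 le_rfl) (jr_ge h1.2.2.1 h1.2.2.2) (jr_ge h1.2.2.1 h1.2.2.2)
      have h5 : f (jr x.1) + f (jr x.2) ≤ y := h2
      linarith
    rw [this, setIntegral_empty]
  · -- strict
    intro y
    have h1 := integral_add_compl (QQ_meas hf y) hg
    have h2 : 0 < ∫ x in (QQ f y)ᶜ, gD x := by
      rw [setIntegral_pos_iff_support_of_nonneg_ae (Eventually.of_forall gD_nonneg)
        hg.integrableOn]
      have h3 : UU ∩ FF f ⁻¹' Ioi y ⊆ Function.support gD ∩ (QQ f y)ᶜ := by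
        rintro x ⟨hx1, hx2⟩
        refine ⟨?_, fun h => ?_⟩
        · rw [Function.mem_support]
          exact (mul_pos (dens_pos hx1.1 hx1.2.1) (dens_pos hx1.2.2.1 hx1.2.2.2)).ne'
        · rw [QQ_eq] at h
          exact absurd (show FF f x ≤ y from h.2) (not_le.2 hx2)
      refine lt_of_lt_of_le ?_ (measure_mono h3)
      refine (gt_open hf y).measure_pos _ ?_
      have h4 := (hf.top.comp jr_top).eventually_gt_atTop |y|
      obtain ⟨x, hx1, hx2⟩ := (h4.and (eventually_gt_atTop (0 : ℝ))).exists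
      refine ⟨(x, x), ⟨hx2.ne', by linarith, hx2.ne', by linarith⟩, ?_⟩
      change y < f (jr x) + f (jr x)
      have h5 : |y| < f (jr x) := hx1
      have := le_abs_self y
      have := abs_nonneg y
      linarith
    change ∫ x in QQ f y, gD x < ∫ x, gD x
    linarith

theorem gg : S_QQ → S_GG := fun _ => gg_all

end Pool.Agent.P8H78.WS
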